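import Pool.Agent.Y298.GA.RatStm

/-! Basic estimates for rational maps near `z ^ d + c₀`. -/

set_option autoImplicit false

open Set Filter Metric MeasureTheory Topology Polynomial

namespace Pool.Agent.Y657.GA

open Pool.Agent.H762R2.Rt Pool.Agent.Helper114.Herman Pool.Agent.Y298.GA

/-- values of polynomials with small coefficients -/
theorem ev_le {f : ℂ[X]} {n : ℕ} (hn : f.natDegree ≤ n) {ρ : ℝ} (h : ∀ i, ‖f.coeff i‖ ≤ ρ)
    {z : ℂ} {B : ℝ} (hB : 1 ≤ B) (hz : ‖z‖ ≤ B) : ‖f.eval z‖ ≤ ((n : ℝ) + 1) * B ^ n * ρ := by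
  rw [Polynomial.eval_eq_sum_range' (Nat.lt_succ_of_le hn)]
  have hρ : 0 ≤ ρ := (norm_nonneg _).trans (h 0)
  calc ‖∑ i ∈ Finset.range n.succ, f.coeff i * z ^ i‖
      ≤ ∑ i ∈ Finset.range n.succ, ‖f.coeff i * z ^ i‖ := norm_sum_le _ _
    _ ≤ ∑ i ∈ Finset.range n.succ, ρ * B ^ n := by
        refine Finset.sum_le_sum fun i hi => ?_
        rw [norm_mul, norm_pow]
        have h1 : ‖z‖ ^ i ≤ B ^ n := (pow_le_pow_left₀ (norm_nonneg _) hz i).trans
          (pow_le_pow_right₀ hB (by have := Finset.mem_range.1 hi; omega))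
        exact mul_le_mul (h i) h1 (by positivity) hρ
    _ = ((n : ℝ) + 1) * B ^ n * ρ := by
        rw [Finset.sum_const, Finset.card_range, nsmul_eq_mul]
        push_cast
        ring

/-- values of the derivative -/
theorem dev_le {f : ℂ[X]} {n : ℕ} (hn : f.natDegree ≤ n) {ρ : ℝ} (h : ∀ i, ‖f.coeff i‖ ≤ ρ)
    {z : ℂ} {B : ℝ} (hB : 1 ≤ B) (hz : ‖z‖ ≤ B) :
    ‖(derivative f).eval z‖ ≤ ((n : ℝ) + 1) * B ^ n * (n * ρ) := by
  have hρ : 0 ≤ ρ := (norm_nonneg _).trans (h 0)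
  refine ev_le ((natDegree_derivative_le f).trans ((Nat.sub_le _ _).trans hn)) (fun i => ?_) hB hz
  rw [coeff_derivative, norm_mul]
  by_cases hi : i + 1 ≤ n
  · have h1 : ‖(i : ℂ) + 1‖ ≤ n := by
      have h2 : ((i : ℂ) + 1) = ((i + 1 : ℕ) : ℂ) := by push_cast; ring
      rw [h2, Complex.norm_natCast]
      exact_mod_cast hi
    rw [mul_comm]
    exact mul_le_mul h1 (h _) (norm_nonneg _) (Nat.cast_nonneg _)
  · rw [coeff_eq_zero_of_natDegree_lt (by omega), norm_zero, zero_mul]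
    positivity

theorem wro_ne {P Q : ℂ[X]} (hc : IsCoprime P Q) (hD : 1 ≤ max P.natDegree Q.natDegree) :
    wro P Q ≠ 0 := by
  have h0 : wro P Q = -Polynomial.wronskian P Q := by
    unfold wro Polynomial.wronskian; ring
  rw [h0, neg_ne_zero]
  intro h
  rw [hc.wronskian_eq_zero_iff] at h
  obtain ⟨h1, h2⟩ := h
  have := Polynomial.derivative_eq_zero.1 h1
  have := Polynomial.derivative_eq_zero.1 h2
  omega

/-- **basic estimates** -/
theorem rbas : S_RBAS := by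
  intro d hd
  obtain ⟨M, hM⟩ : ∃ M : ℝ, M = ((d : ℝ) + 1) * 9 ^ d * (d + 1) := ⟨_, rfl⟩
  have hd1 : (2 : ℝ) ≤ d := by exact_mod_cast hd
  have h9 : (1 : ℝ) ≤ 9 ^ d := one_le_pow₀ (by norm_num)
  have hMd : (d : ℝ) + 1 ≤ M := by
    rw [hM]
    have h1 : (1 : ℝ) ≤ ((d : ℝ) + 1) * 9 ^ d := by nlinarith
    nlinarith
  have hM0 : 0 < M := by linarith
  refine ⟨(5 / 2) * ((2 * (9 ^ d + 3) + 1) * M) + 2 * M * (9 ^ d + 3), 1 / (2 * M), ?_, ?_, ?_, ?_⟩
  · have : (1 : ℝ) ≤ M := by linarith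
    nlinarith
  · positivity
  · rw [div_le_one (by positivity)]
    linarith
  intro c₀ r P Q hc hr0 hr hN
  obtain ⟨dP, dQ, cP, cQ⟩ := hN
  have hMr : M * r ≤ 1 / 2 := by
    have h1 := mul_le_mul_of_nonneg_left hr hM0.le
    have h2 : M * (1 / (2 * M)) = 1 / 2 := by field_simp
    linarith
  have hdr : ((d : ℝ) + 1) * r ≤ 1 / 2 := by
    have := mul_le_mul_of_nonneg_right hMd hr0
    linarith
  have hr1 : r ≤ 1 / 2 := by nlinarith
  obtain ⟨p, hp⟩ : ∃ p : ℂ[X], p = P - (X ^ d + C c₀) := ⟨_, rfl⟩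
  obtain ⟨q, hq⟩ : ∃ q : ℂ[X], q = Q - 1 := ⟨_, rfl⟩
  have hP : P = X ^ d + C c₀ + p := by rw [hp]; ring
  have hQ : Q = 1 + q := by rw [hq]; ring
  have dp : p.natDegree ≤ d := by
    rw [hp]
    refine (natDegree_sub_le _ _).trans (max_le dP ?_)
    exact (natDegree_add_le _ _).trans (max_le (by rw [natDegree_X_pow])
      (by rw [natDegree_C]; omega))
  have dq : q.natDegree ≤ d := by
    rw [hq]
    refine (natDegree_sub_le _ _).trans (max_le dQ ?_)
    rw [natDegree_one]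
    omega
  have cp : ∀ i, ‖p.coeff i‖ ≤ r := fun i => by
    rw [hp, coeff_sub]
    exact cP i
  have cq : ∀ i, ‖q.coeff i‖ ≤ r := fun i => by
    rw [hq, coeff_sub]
    exact cQ i
  -- estimates of p, q and the derivatives
  have hMle : ∀ z : ℂ, ‖z‖ ≤ 9 → ‖p.eval z‖ ≤ M * r ∧ ‖q.eval z‖ ≤ M * r ∧
      ‖(derivative p).eval z‖ ≤ M * r ∧ ‖(derivative q).eval z‖ ≤ M * r := by
    intro z hz
    have e1 : ((d : ℝ) + 1) * 9 ^ d * r ≤ M * r := by
      apply mul_le_mul_of_nonneg_right _ hr0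
      rw [hM]
      have h1 : (0 : ℝ) ≤ ((d : ℝ) + 1) * 9 ^ d := by positivity
      nlinarith
    have e2 : ((d : ℝ) + 1) * 9 ^ d * (d * r) ≤ M * r := by
      rw [hM]
      have h1 : (0 : ℝ) ≤ ((d : ℝ) + 1) * 9 ^ d := by positivity
      have h2 : (0 : ℝ) ≤ ((d : ℝ) + 1) * 9 ^ d * r := by positivity
      nlinarith
    exact ⟨(ev_le dp cp (by norm_num) hz).trans e1, (ev_le dq cq (by norm_num) hz).trans e1,
      (dev_le dp cp (by norm_num) hz).trans e2, (dev_le dq cq (by norm_num) hz).trans e2⟩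
  have eP : ∀ z : ℂ, P.eval z = z ^ d + c₀ + p.eval z := fun z => by
    rw [hP]
    simp
  have eQ : ∀ z : ℂ, Q.eval z = 1 + q.eval z := fun z => by
    rw [hQ]
    simp
  have hQl : ∀ z : ℂ, ‖z‖ ≤ 9 → 1 / 2 ≤ ‖Q.eval z‖ := by
    intro z hz
    have h1 := (hMle z hz).2.1
    rw [eQ]
    have h2 : ‖(1 : ℂ)‖ ≤ ‖1 + q.eval z‖ + ‖q.eval z‖ := by
      calc ‖(1 : ℂ)‖ = ‖(1 + q.eval z) - q.eval z‖ := by rw [add_sub_cancel_right]
        _ ≤ _ := norm_sub_le _ _
    rw [norm_one] at h2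
    linarith
  have hzd : ∀ z : ℂ, ‖z‖ ≤ 9 → ‖z ^ d + c₀‖ ≤ 9 ^ d + 2 := by
    intro z hz
    refine (norm_add_le _ _).trans (add_le_add ?_ hc)
    rw [norm_pow]
    exact pow_le_pow_left₀ (norm_nonneg _) hz d
  have hPQ : ∀ z : ℂ, ‖z‖ ≤ 9 → ‖P.eval z / Q.eval z - (z ^ d + c₀)‖ ≤
      2 * M * (9 ^ d + 3) * r := by
    intro z hz
    obtain ⟨h1, h2, -, -⟩ := hMle z hz
    have h3 := hQl z hz
    have hQ0 : Q.eval z ≠ 0 := by
      intro h
      rw [h, norm_zero] at h3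
      linarith
    have e : P.eval z / Q.eval z - (z ^ d + c₀) =
        (p.eval z - (z ^ d + c₀) * q.eval z) / Q.eval z := by
      rw [eP, eQ] at *
      field_simp
      ring
    rw [e, norm_div, div_le_iff₀ (by linarith)]
    have h4 : ‖p.eval z - (z ^ d + c₀) * q.eval z‖ ≤ M * r + (9 ^ d + 2) * (M * r) := by
      refine (norm_sub_le _ _).trans (add_le_add h1 ?_)
      rw [norm_mul]
      exact mul_le_mul (hzd z hz) h2 (norm_nonneg _) (by positivity)
    have h5 : 0 ≤ 2 * M * (9 ^ d + 3) * r := by positivity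
    have h6 : 2 * M * (9 ^ d + 3) * r * (1 / 2) ≤ 2 * M * (9 ^ d + 3) * r * ‖Q.eval z‖ :=
      mul_le_mul_of_nonneg_left h3 h5
    nlinarith
  -- no common zeros
  have hcop : IsCoprime P Q := by
    refine (Polynomial.isCoprime_iff_aeval_ne_zero_of_isAlgClosed ℂ ℂ P Q).2 fun z => ?_
    rw [coe_aeval_eq_eval]
    by_cases hz : ‖z‖ ≤ 9
    · right
      intro h
      have := hQl z hz
      rw [h, norm_zero] at this
      linarith
    · left
      push Not at hz
      have h1 := ev_le dp cp (by linarith : (1 : ℝ) ≤ ‖z‖) le_rfl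
      have h2 : (81 : ℝ) ≤ ‖z‖ ^ d := by
        calc (81 : ℝ) = 9 ^ 2 := by norm_num
          _ ≤ 9 ^ d := pow_le_pow_right₀ (by norm_num) hd
          _ ≤ ‖z‖ ^ d := pow_le_pow_left₀ (by norm_num) hz.le d
      have h3 : ‖p.eval z‖ ≤ ‖z‖ ^ d / 2 := by
        have h4 : ((d : ℝ) + 1) * ‖z‖ ^ d * r ≤ ‖z‖ ^ d / 2 := by nlinarith
        exact h1.trans h4
      intro h
      rw [eP] at h
      have h5 : z ^ d = -(c₀ + p.eval z) := by linear_combination h
      have h6 : ‖z‖ ^ d ≤ ‖c₀‖ + ‖p.eval z‖ := by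
        rw [← norm_pow, h5, norm_neg]
        exact norm_add_le _ _
      linarith
  have hdeg : max P.natDegree Q.natDegree = d := by
    have h1 := cP d
    have h2 : (X ^ d + C c₀ : ℂ[X]).coeff d = 1 := by
      rw [coeff_add, coeff_X_pow_self, coeff_C_ne_zero (by omega), add_zero]
    rw [h2] at h1
    have h3 : P.coeff d ≠ 0 := by
      intro h
      rw [h, zero_sub, norm_neg, norm_one] at h1
      linarith
    have h4 : d ≤ P.natDegree := le_natDegree_of_ne_zero h3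
    omega
  refine ⟨fun z hz => hQl z (by rw [mem_ball_zero_iff] at hz; exact hz.le), fun z hz => ?_,
    fun z hz hw => ?_, hcop, ?_, hdeg, wro_ne hcop (by omega)⟩
  · have hz' : ‖z‖ ≤ 9 := by rw [mem_ball_zero_iff] at hz; exact hz.le
    refine (hPQ z hz').trans (mul_le_mul_of_nonneg_right ?_ hr0)
    have : (0 : ℝ) ≤ (5 / 2) * ((2 * (9 ^ d + 3) + 1) * M) := by positivity
    linarith
  · have hz' : ‖z‖ ≤ 9 := by linarith
    obtain ⟨h1, h2, h3, h4⟩ := hMle z hz'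
    have h5 := hQl z hz'
    have hPn : ‖P.eval z‖ ≤ 9 ^ d + 3 := by
      rw [eP]
      refine (norm_add_le _ _).trans ?_
      have := hzd z hz'
      linarith
    have e1 : (derivative P).eval z = d * z ^ (d - 1) + (derivative p).eval z := by
      rw [hP]
      simp [derivative_X_pow]
    have e2 : (derivative Q).eval z = (derivative q).eval z := by
      rw [hQ]
      simp
    have e3 : (d * z ^ (d - 1)) * Q.eval z = P.eval z * (derivative q).eval z -
        (derivative p).eval z * Q.eval z := by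
      unfold wro at hw
      rw [eval_sub, eval_mul, eval_mul, e1, e2] at hw
      linear_combination hw
    have h6 : (d : ℝ) * ‖z‖ ^ (d - 1) * ‖Q.eval z‖ ≤
        (9 ^ d + 3) * (M * r) + (M * r) * ‖Q.eval z‖ := by
      have e4 : (d : ℝ) * ‖z‖ ^ (d - 1) * ‖Q.eval z‖ = ‖(d * z ^ (d - 1)) * Q.eval z‖ := by
        rw [norm_mul, norm_mul, norm_pow, Complex.norm_natCast]
      rw [e4, e3]
      refine (norm_sub_le _ _).trans (add_le_add ?_ ?_)
      · rw [norm_mul]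
        exact mul_le_mul hPn h4 (norm_nonneg _) (by positivity)
      · rw [norm_mul]
        exact mul_le_mul_of_nonneg_right h3 (norm_nonneg _)
    have hMr0 : 0 ≤ M * r := by positivity
    have h7 : (d : ℝ) * ‖z‖ ^ (d - 1) ≤ (2 * (9 ^ d + 3) + 1) * (M * r) := by
      by_contra hcon
      push Not at hcon
      have h8 : ((2 * (9 ^ d + 3) + 1) * (M * r)) * ‖Q.eval z‖ <
          (d : ℝ) * ‖z‖ ^ (d - 1) * ‖Q.eval z‖ := mul_lt_mul_of_pos_right hcon (by linarith)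
      have h9' : (9 ^ d + 3) * (M * r) ≤ (2 * (9 ^ d + 3)) * (M * r) * ‖Q.eval z‖ := by
        have h10 : 0 ≤ (9 ^ d + 3) * (M * r) := by positivity
        nlinarith
      nlinarith
    have h8 : ‖z‖ ^ (d - 1) ≤ (2 * (9 ^ d + 3) + 1) * (M * r) := by
      have h10 : 0 ≤ ‖z‖ ^ (d - 1) := by positivity
      nlinarith
    have h9' : ‖z‖ ^ d ≤ (5 / 2) * ((2 * (9 ^ d + 3) + 1) * (M * r)) := by
      have e5 : ‖z‖ ^ d = ‖z‖ * ‖z‖ ^ (d - 1) := by
        rw [← pow_succ']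
        congr 1
        omega
      rw [e5]
      exact mul_le_mul hz h8 (by positivity) (by norm_num)
    have h10 := hPQ z hz'
    have e6 : P.eval z / Q.eval z - c₀ = z ^ d + (P.eval z / Q.eval z - (z ^ d + c₀)) := by ring
    rw [e6]
    refine (norm_add_le _ _).trans ?_
    rw [norm_pow]
    nlinarith
  · intro h
    have := hQl 0 (by rw [norm_zero]; norm_num)
    rw [h, eval_zero, norm_zero] at this
    linarith

end Pool.Agent.Y657.GA
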